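import Pool.Agent.Helper94.PQ.StmtsT

/-!
# Direct sums (GADD)
-/

set_option autoImplicit false

open NumberField
open scoped Classical

namespace PQ

open BKA Pool.Agent.Helper13.Swan

theorem gadd61_conj {G k V : Type} [Group G] [Field k] [AddCommGroup V] [Module k V]
    (r : G →* (V →ₗ[k] V)) (V₁ V₂ : Submodule k V) (hc : IsCompl V₁ V₂)
    (h₁ : ∀ g, ∀ x ∈ V₁, r g x ∈ V₁) (h₂ : ∀ g, ∀ x ∈ V₂, r g x ∈ V₂) (g : G) :
    r g = (Submodule.prodEquivOfIsCompl V₁ V₂ hc).conj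
      (LinearMap.prodMap (subR r V₁ h₁ g) (subR r V₂ h₂ g)) := by
  ext x
  obtain ⟨p, rfl⟩ := (Submodule.prodEquivOfIsCompl V₁ V₂ hc).surjective x
  rw [LinearEquiv.conj_apply_apply, LinearEquiv.symm_apply_apply,
    Submodule.coe_prodEquivOfIsCompl', Submodule.coe_prodEquivOfIsCompl', map_add]
  rfl

theorem gadd61 : ST_GADD := by
  intro Ω P _ _ _ _ _ w π k V _ _ _ _ _ r V₁ V₂ hc h₁ h₂ hg₁ hg₂
  obtain ⟨D₁, s₁, j₁, hD₁, hd₁, hs₁, hw₁⟩ := hg₁
  obtain ⟨D₂, s₂, j₂, hD₂, hd₂, hs₂, hw₂⟩ := hg₂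
  have hdet : ∀ g : P, LinearMap.det (r g) =
      LinearMap.det (subR r V₁ h₁ g) * LinearMap.det (subR r V₂ h₂ g) := by
    intro g
    have h := gadd61_conj r V₁ V₂ hc h₁ h₂ g
    rw [h]
    have h2 := LinearMap.det_conj
      (LinearMap.prodMap (subR r V₁ h₁ g) (subR r V₂ h₂ g)) (Submodule.prodEquivOfIsCompl V₁ V₂ hc)
    rw [← LinearMap.det_prodMap, ← h2]
    rfl
  have htr : ∀ g : P, LinearMap.trace k V (r g) =
      LinearMap.trace k V₁ (subR r V₁ h₁ g) + LinearMap.trace k V₂ (subR r V₂ h₂ g) := by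
    intro g
    have h := gadd61_conj r V₁ V₂ hc h₁ h₂ g
    rw [h, LinearMap.trace_conj', LinearMap.trace_prodMap']
  have hfin : (Module.finrank k V : k) = (Module.finrank k V₁ : k) + (Module.finrank k V₂ : k) := by
    rw [← Submodule.finrank_add_eq_of_isCompl hc]
    push_cast
    rfl
  refine ⟨D₁ * D₂, s₁ + s₂, j₁ + j₂, mul_ne_zero hD₁ hD₂, ?_, ?_, ?_⟩
  · intro g
    rw [hdet g, smul_mul']
    rcases hd₁ g with ⟨a1, a2⟩ | ⟨a1, a2⟩ <;> rcases hd₂ g with ⟨b1, b2⟩ | ⟨b1, b2⟩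
    · left
      rw [a1, a2, b1, b2]
      exact ⟨one_mul _, rfl⟩
    · right
      rw [a1, a2, b1, b2]
      exact ⟨one_mul _, by ring⟩
    · right
      rw [a1, a2, b1, b2]
      exact ⟨mul_one _, by ring⟩
    · left
      rw [a1, a2, b1, b2]
      exact ⟨by ring, by ring⟩
  · push_cast
    rw [hs₁, hs₂, ← Finset.sum_add_distrib]
    refine Finset.sum_congr rfl fun g _ => ?_
    rw [htr g, hfin]
    ring
  · rw [map_mul, mul_pow, hw₁, hw₂, ← ex_add]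
    congr 1
    ring

end PQ
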