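import Pool.Agent.Helper94.PQ.Stmts
import Pool.Agent.Helper81.AbMot.FE

/-!
# Lifting of elements of the inertia group (SUR)
-/

set_option autoImplicit false

open NumberField
open scoped Pointwise

namespace PQ

section

open AbMot

variable {F K Ω : Type} [Field F] [Field K] [NumberField K] [Field Ω] [Algebra F K]
  [Algebra K Ω] [Algebra F Ω] [IsScalarTower F K Ω] [IsGalois F K] [IsGalois K Ω] [IsGalois F Ω]

attribute [local instance] Ideal.Quotient.field in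
theorem in_lift61 (Q : Ideal (𝓞 K)) [Q.IsMaximal] (σ : K ≃ₐ[F] K)
    (hσ : ∀ x : 𝓞 K, σ • x - x ∈ Q) (P : Ideal (𝓞 Ω)) (hP : P.IsPrime)
    (hPQ : P.comap (algebraMap (𝓞 K) (𝓞 Ω)) = Q) :
    ∃ τ : Ω ≃ₐ[F] Ω,
      (∀ x : K, τ (algebraMap K Ω x) = algebraMap K Ω (σ x)) ∧ ∀ y : 𝓞 Ω, τ • y - y ∈ P := by
  classical
  have := wc_isInvariant (K := K) (Ω := Ω)
  have := wc_comm (K := K) (Ω := Ω)
  let : TopologicalSpace (𝓞 Ω) := ⊥
  have : DiscreteTopology (𝓞 Ω) := ⟨rfl⟩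
  have : ContinuousSMul (Ω ≃ₐ[K] Ω) (𝓞 Ω) := by
    rw [continuousSMul_iff_stabilizer_isOpen]
    intro x
    have h := stabilizer_isOpen_of_isIntegral (K := K) (L := Ω) (x : Ω)
    have e : (MulAction.stabilizer (Ω ≃ₐ[K] Ω) x : Set (Ω ≃ₐ[K] Ω))
        = (MulAction.stabilizer (Ω ≃ₐ[K] Ω) (x : Ω) : Set (Ω ≃ₐ[K] Ω)) := by
      ext g
      constructor
      · intro hg
        exact congrArg (fun z : 𝓞 Ω => (z : Ω)) hg
      · intro hg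
        exact RingOfIntegers.ext hg
    rw [e]
    exact h
  -- a lift of σ
  obtain ⟨τ0, hτ0⟩ := AlgEquiv.restrictNormalHom_surjective (F := F) (K₁ := K) Ω σ
  have hτ0' : ∀ x : K, τ0 (algebraMap K Ω x) = algebraMap K Ω (σ x) := by
    intro x
    rw [← hτ0]
    exact (AlgEquiv.restrictNormal_commutes τ0 K x).symm
  have hstep : ∀ (τ : Ω ≃ₐ[F] Ω), (∀ x : K, τ (algebraMap K Ω x) = algebraMap K Ω (σ x)) →
      ∀ x : 𝓞 K, τ • (algebraMap (𝓞 K) (𝓞 Ω) x) = algebraMap (𝓞 K) (𝓞 Ω) (σ • x) := by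
    intro τ hτ x
    apply RingOfIntegers.ext
    exact hτ (x : K)
  let P' : Ideal (𝓞 Ω) := P.comap (MulSemiringAction.toRingHom (Ω ≃ₐ[F] Ω) (𝓞 Ω) τ0)
  have hP'mem : ∀ y : 𝓞 Ω, y ∈ P' ↔ τ0 • y ∈ P := fun y => Iff.rfl
  have hP' : P'.IsPrime := Ideal.comap_isPrime _ _
  have hunder : P'.under (𝓞 K) = P.under (𝓞 K) := by
    ext x
    have a1 : x ∈ P'.under (𝓞 K) ↔ τ0 • (algebraMap (𝓞 K) (𝓞 Ω) x) ∈ P := Iff.rfl
    have a2 : x ∈ P.under (𝓞 K) ↔ algebraMap (𝓞 K) (𝓞 Ω) x ∈ P := Iff.rfl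
    rw [a1, a2, hstep τ0 hτ0']
    have h1 : (algebraMap (𝓞 K) (𝓞 Ω) (σ • x) ∈ P ↔ σ • x ∈ Q) := by
      rw [← hPQ, Ideal.mem_comap]
    have h2 : (algebraMap (𝓞 K) (𝓞 Ω) x ∈ P ↔ x ∈ Q) := by
      rw [← hPQ, Ideal.mem_comap]
    rw [h1, h2]
    constructor
    · intro h
      have := Q.sub_mem h (hσ x)
      simpa using this
    · intro h
      have := Q.add_mem (hσ x) h
      simpa using this
  obtain ⟨ρ, hρ⟩ := Algebra.IsInvariant.exists_smul_of_under_eq_of_profinite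
    (A := 𝓞 K) (B := 𝓞 Ω) (G := (Ω ≃ₐ[K] Ω)) P' P hunder
  let τ1 : Ω ≃ₐ[F] Ω := τ0 * (ρ⁻¹).restrictScalars F
  have hτ1 : ∀ x : K, τ1 (algebraMap K Ω x) = algebraMap K Ω (σ x) := by
    intro x
    have h1 : (ρ⁻¹ : Ω ≃ₐ[K] Ω) (algebraMap K Ω x) = algebraMap K Ω x := AlgEquiv.commutes _ _
    have h2 : τ1 (algebraMap K Ω x) = τ0 ((ρ⁻¹ : Ω ≃ₐ[K] Ω) (algebraMap K Ω x)) := rfl
    rw [h2, h1, hτ0']
  have hτ1P : ∀ y : 𝓞 Ω, y ∈ P ↔ τ1 • y ∈ P := by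
    intro y
    have h1 : y ∈ P ↔ ρ⁻¹ • y ∈ P' := by
      conv_lhs => rw [hρ]
      exact Ideal.mem_pointwise_smul_iff_inv_smul_mem
    rw [h1, hP'mem]
    have h2 : τ0 • ρ⁻¹ • y = τ1 • y := RingOfIntegers.ext rfl
    rw [h2]
  have hlies : P.LiesOver Q := ⟨hPQ.symm⟩
  -- the automorphism of the residue field
  let e1 : 𝓞 Ω ≃+* 𝓞 Ω := MulSemiringAction.toRingEquiv (Ω ≃ₐ[F] Ω) (𝓞 Ω) τ1
  have he1 : P = P.map (e1 : 𝓞 Ω →+* 𝓞 Ω) := by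
    apply le_antisymm
    · intro y hy
      have h1 : τ1 • e1.symm y = y := e1.apply_symm_apply y
      have h2 : e1.symm y ∈ P := by
        rw [hτ1P, h1]
        exact hy
      have h3 := Ideal.mem_map_of_mem (e1 : 𝓞 Ω →+* 𝓞 Ω) h2
      have h4 : (e1 : 𝓞 Ω →+* 𝓞 Ω) (e1.symm y) = y := e1.apply_symm_apply y
      rw [h4] at h3
      exact h3
    · rw [Ideal.map_le_iff_le_comap]
      intro y hy
      exact (hτ1P y).1 hy
  let e2 : (𝓞 Ω ⧸ P) ≃+* (𝓞 Ω ⧸ P) := Ideal.quotientEquiv P P e1 he1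
  let e3 : (𝓞 Ω ⧸ P) ≃ₐ[𝓞 K ⧸ Q] (𝓞 Ω ⧸ P) := AlgEquiv.ofRingEquiv (f := e2) (by
    intro r
    obtain ⟨r, rfl⟩ := Ideal.Quotient.mk_surjective r
    have h1 : algebraMap (𝓞 K ⧸ Q) (𝓞 Ω ⧸ P) (Ideal.Quotient.mk Q r)
        = Ideal.Quotient.mk P (algebraMap (𝓞 K) (𝓞 Ω) r) := rfl
    rw [h1]
    have h2 : e2 (Ideal.Quotient.mk P (algebraMap (𝓞 K) (𝓞 Ω) r))
        = Ideal.Quotient.mk P (τ1 • (algebraMap (𝓞 K) (𝓞 Ω) r)) := rfl
    rw [h2, hstep τ1 hτ1, Ideal.Quotient.eq, ← map_sub]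
    have h3 := hσ r
    rw [← hPQ, Ideal.mem_comap] at h3
    exact h3)
  obtain ⟨ρ2, hρ2⟩ := Ideal.Quotient.stabilizerHom_surjective_of_profinite
    (G := (Ω ≃ₐ[K] Ω)) Q P e3
  have hρ2' : ∀ y : 𝓞 Ω, ρ2.1 • y - τ1 • y ∈ P := by
    intro y
    have h1 := DFunLike.congr_fun hρ2 (Ideal.Quotient.mk P y)
    have h2 : Ideal.Quotient.mk P (ρ2.1 • y) = Ideal.Quotient.mk P (τ1 • y) := h1
    exact Ideal.Quotient.eq.1 h2
  have hstab : ∀ y : 𝓞 Ω, y ∈ P → (ρ2.1)⁻¹ • y ∈ P := by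
    intro y hy
    have h1 : ρ2.1 • P = P := ρ2.2
    rw [← h1] at hy
    exact Ideal.mem_pointwise_smul_iff_inv_smul_mem.1 hy
  refine ⟨((ρ2.1)⁻¹).restrictScalars F * τ1, ?_, ?_⟩
  · intro x
    have h1 : (((ρ2.1)⁻¹).restrictScalars F * τ1) (algebraMap K Ω x)
        = (ρ2.1)⁻¹ (τ1 (algebraMap K Ω x)) := rfl
    rw [h1, hτ1, AlgEquiv.commutes]
  · intro y
    have h1 : ((((ρ2.1)⁻¹).restrictScalars F * τ1) • y : 𝓞 Ω) = (ρ2.1)⁻¹ • (τ1 • y) :=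
      RingOfIntegers.ext rfl
    have h2 : y = (ρ2.1)⁻¹ • (ρ2.1 • y) := (inv_smul_smul _ _).symm
    have h3 : (ρ2.1)⁻¹ • (τ1 • y) - y = (ρ2.1)⁻¹ • (τ1 • y - ρ2.1 • y) := by
      rw [smul_sub, ← h2]
    rw [h1, h3]
    apply hstab
    have := P.neg_mem (hρ2' y)
    rw [neg_sub] at this
    exact this

end

open BKA

theorem sur61 : ST_SUR := by
  intro F _ _ v 𝔓 hv L hfd hn g hg
  obtain ⟨hprime, hover⟩ := hv
  have : CharZero L := charZero_of_injective_algebraMap (algebraMap F L).injective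
  have : FiniteDimensional ℚ L := Module.Finite.trans (R := ℚ) F L
  have : NumberField L := ⟨⟩
  have : IsGalois F L := ⟨⟩
  have : IsGalois F (AlgebraicClosure F) := inferInstance
  have : IsGalois L (AlgebraicClosure F) := IsGalois.tower_top_intermediateField L
  -- the prime of the ring of integers of the algebraic closure
  let e : 𝓞 (AlgebraicClosure F) →+* Zb F :=
    { toFun := fun x => ⟨(x : AlgebraicClosure F), x.isIntegral_coe⟩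
      map_one' := rfl
      map_mul' := fun _ _ => rfl
      map_zero' := rfl
      map_add' := fun _ _ => rfl }
  let P : Ideal (𝓞 (AlgebraicClosure F)) := 𝔓.comap e
  have hP : P.IsPrime := Ideal.comap_isPrime _ _
  have hPQ : P.comap (algebraMap (𝓞 L) (𝓞 (AlgebraicClosure F))) = under L 𝔓 := by
    ext x
    have h1 : x ∈ P.comap (algebraMap (𝓞 L) (𝓞 (AlgebraicClosure F))) ↔
        e (algebraMap (𝓞 L) (𝓞 (AlgebraicClosure F)) x) ∈ 𝔓 := Iff.rfl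
    have h2 : x ∈ under L 𝔓 ↔ inc L x ∈ 𝔓 := Iff.rfl
    have h3 : e (algebraMap (𝓞 L) (𝓞 (AlgebraicClosure F)) x) = inc L x := Subtype.ext rfl
    rw [h1, h2, h3]
  have hprimeQ : (under L 𝔓).IsPrime := Ideal.comap_isPrime _ _
  have hQ0 : under L 𝔓 ≠ ⊥ := by
    obtain ⟨x, hx, hx0⟩ := Submodule.exists_mem_ne_zero_of_ne_bot v.ne_bot
    intro h0
    have h1 := (hover x (inc L (algebraMap (𝓞 F) (𝓞 L) x)) rfl).1 hx
    have h2 : algebraMap (𝓞 F) (𝓞 L) x ∈ under L 𝔓 := h1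
    rw [h0, Ideal.mem_bot] at h2
    exact hx0 ((FaithfulSMul.algebraMap_injective (𝓞 F) (𝓞 L)) (by rw [h2, map_zero]))
  have hQm : (under L 𝔓).IsMaximal := Ideal.IsPrime.isMaximal hprimeQ hQ0
  have hσ : ∀ x : 𝓞 L, g • x - x ∈ under L 𝔓 := fun x => hg x (g • x) rfl
  obtain ⟨τ, hτ, hτP⟩ := in_lift61 (F := F) (K := L) (Ω := AlgebraicClosure F) (under L 𝔓) g hσ P
    hP hPQ
  refine ⟨τ, ?_, fun x => hτ x⟩
  intro x y hxy
  rw [pow_one]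
  let x' : 𝓞 (AlgebraicClosure F) := ⟨(x : AlgebraicClosure F), x.2⟩
  have h1 : τ • x' - x' ∈ P := hτP x'
  have h2 : e (τ • x' - x') ∈ 𝔓 := h1
  have h3 : e (τ • x' - x') = y - x := by
    apply Subtype.ext
    have h4 : ((e (τ • x' - x') : Zb F) : AlgebraicClosure F) =
      τ (x : AlgebraicClosure F) - (x : AlgebraicClosure F) := rfl
    rw [h4, ← hxy]
    rfl
  rw [← h3]
  exact h2

end PQ
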